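import Pool.Agent.H8.UN.Targets
import Pool.Agent.H84.TW.PB

/-!
# MP_64fb07_lc, board un8_modules, row PE: pull-back of a spectrum along `a * n ^ r + e`
-/

set_option autoImplicit false

namespace Pool.Agent.H54.UN

open Pool.Agent.H69.Sp Pool.Agent.H69.Mt Pool.Agent.H16.TO Pool.Agent.H8.UN

theorem fd_mono' (c r e : ℕ) (hc : 0 < c) :
    FD (fun _ _ v => 1 ≤ v 1 ∧ v 2 = c * v 1 ^ r + e) := by
  refine (FD.ex 3 (FD.ex 4 (FD.ex 5 (FD.ex 6 ((Pool.Agent.H84.TW.fd_pow r 1 3).and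
    ((FD.num c 4).and ((FD.mul 4 3 5).and ((FD.num e 6).and (FD.add 5 6 2))))))))).congr
    fun N E v hv => ?_
  simp only [Function.update_self, Function.update_of_ne, ne_eq, not_false_eq_true,
    OfNat.one_ne_ofNat, Nat.reduceEqDiff]
  constructor
  · rintro ⟨t, _, w, _, z, _, y, _, ⟨h1, h2⟩, h3, h4, h5, h6⟩
    exact ⟨h1, by rw [← h6, ← h4, h3, h2, h5]⟩
  · rintro ⟨h1, h2⟩
    have h3 : 1 ≤ v 1 ^ r := Nat.one_le_pow _ _ h1
    have h4 := hv 2
    rw [h2] at h4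
    have h5 : 1 * v 1 ^ r ≤ c * v 1 ^ r := Nat.mul_le_mul_right _ hc
    have h6 : c * 1 ≤ c * v 1 ^ r := Nat.mul_le_mul_left _ h3
    exact ⟨v 1 ^ r, by omega, c, by omega, c * v 1 ^ r, by omega, e, by omega, ⟨h1, rfl⟩, rfl, rfl,
      rfl, h2.symm⟩

/-- Row PE -/
theorem pf_pe : N_PE := by
  intro X hX c r e hc _
  refine wrapT (P := fun N _ m => ∃ y, y < N ∧ ((1 ≤ m ∧ y = c * m ^ r + e) ∧ y ∈ X)) ?_ ?_
    (c + r + e) fun m hm => ?_
  · refine (ED.ex 2 ((fd_mono' c r e hc).ed.and (mem_ed hX 2))).congr fun N E v hv => ?_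
    simp only [Function.update_self, Function.update_of_ne, ne_eq, not_false_eq_true,
      OfNat.one_ne_ofNat]
  · rintro ⟨h, _⟩
    omega
  · have hlt : c * m ^ r + e < (m ^ 2 ^ (c + r + e)) ^ 8 := by
      have h1 : c ≤ m ^ c := (Nat.lt_two_pow_self (n := c)).le.trans (Nat.pow_le_pow_left hm c)
      have h1' : e ≤ m ^ e := (Nat.lt_two_pow_self (n := e)).le.trans (Nat.pow_le_pow_left hm e)
      have hpos : ∀ k, 0 < m ^ k := fun k => Nat.pow_pos (by omega)
      have h2 : c * m ^ r ≤ m ^ (c + r + e) := by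
        rw [pow_add, pow_add]
        calc c * m ^ r ≤ m ^ c * m ^ r := Nat.mul_le_mul_right _ h1
          _ ≤ m ^ c * m ^ r * m ^ e := Nat.le_mul_of_pos_right _ (hpos e)
      have h2' : e ≤ m ^ (c + r + e) := by
        rw [pow_add]
        calc e ≤ m ^ e := h1'
          _ ≤ m ^ (c + r) * m ^ e := Nat.le_mul_of_pos_left _ (hpos _)
      have h3 : m ^ (c + r + e) ≤ m ^ 2 ^ (c + r + e) :=
        Nat.pow_le_pow_right (by omega) (Nat.lt_two_pow_self (n := c + r + e)).le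
      set M := m ^ 2 ^ (c + r + e) with hM
      have h4 : 2 ≤ M := by
        have : 1 < M := Nat.one_lt_pow (by positivity) (by omega)
        omega
      have h5 : 2 * M ≤ M ^ 2 := by
        rw [pow_two]
        exact Nat.mul_le_mul_right _ h4
      calc c * m ^ r + e ≤ 2 * M := by omega
        _ ≤ M ^ 2 := h5
        _ < M ^ 8 := Nat.pow_lt_pow_right (by omega) (by norm_num)
    constructor
    · rintro ⟨_, h2⟩
      exact ⟨fun _ _ => False, _, hlt, ⟨by omega, rfl⟩, h2⟩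
    · rintro ⟨_, y, _, ⟨_, rfl⟩, h2⟩
      exact ⟨by omega, h2⟩

end Pool.Agent.H54.UN
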