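import Pool.Agent.H8.UN.Targets

/-!
# MP_64fb07_lc, board un8_modules, rows RE and OP
-/

set_option autoImplicit false

namespace Pool.Agent.H54.UN

open Pool.Agent.H69.Sp Pool.Agent.H69.Mt Pool.Agent.H16.TO Pool.Agent.H8.PL Pool.Agent.H8.DI
open Pool.Agent.H8.PU Pool.Agent.H8.UN

/-- Row RE -/
theorem pf_re (hUR : N_UR) (hPE : N_PE) : N_RE := by
  intro A g h1 h2 h3 h4 S hS
  obtain ⟨a, r, e, ha, hr, h5⟩ := hUR S hS
  have h6 := hPE _ (h1 _ h4) a r e (by omega) hr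
  have h7 : posCompl S = {n | 0 < n ∧ a * n ^ r + e ∈ {n | 4 ≤ n ∧ g n ∈ posCompl A}} := by
    ext n
    constructor
    · rintro ⟨hn, hnS⟩
      have hm : 4 ≤ a * n ^ r + e := by
        have : 1 ≤ n ^ r := Nat.one_le_pow _ _ hn
        nlinarith
      refine ⟨hn, hm, h2 _ hm, fun h8 => hnS ?_⟩
      exact (h5 n hn).2 ((h3 _ hm).2 h8)
    · rintro ⟨hn, hm, -, h8⟩
      exact ⟨hn, fun hnS => h8 ((h3 _ hm).1 ((h5 n hn).1 hnS))⟩
  rw [h7]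
  exact h6

/-- Row OP -/
theorem pf_op (hRE : N_RE) (hXS : N_XS) (hP1 : Y_P1) (hSP : Y_SP) (hPB : Y_PB) : N_OP := by
  obtain ⟨φ, r, c, hr, hc, h⟩ := hP1 X0 hXS
  refine ⟨φ, fun h1 => ?_, fun h1 => h1 _ (hSP φ)⟩
  refine hRE (specPl φ) (fun n => c * ((n ^ r - 1) ^ 2 + 1)) (fun X hX => hPB X hX r c hr hc)
    (fun n _ => ?_) h h1
  exact Nat.mul_pos hc (Nat.succ_pos _)

end Pool.Agent.H54.UN
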